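import Pool.Agent.N211.TP2.Defs

/-!
# Hodge classes and Tate classes on the powers of a variety: definitions
-/

open CategoryTheory AlgebraicGeometry

universe u

namespace Pool.Agent.N211.TP3

open Pool.Agent.H914 Pool.Agent.H914.VarClass Pool.Agent.Y121.AHS Pool.Agent.N211.TP2
open Pool.Agent.Y133.Half (pw)

variable {k : Type u} [Field k] {𝒱 : VarClass k} {ops : CycleOps 𝒱} (T : HodgeTheory ops)
  (E : Type) [Field E] [Algebra T.W.K E] (X : 𝒱.Obj)

/-- The classes of the algebraic cycles of codimension `j` on `X ^ (n + 1)`, as classes with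
coefficients in `E`. -/
def cycClasses (n j : ℕ) : Set (PowH T E X n) :=
  {x | ∃ z, (pw X n).IsCyc j z ∧ x = emL T.W E (clc T.W z)}

/-- The subspace (over `E`) of the cohomology of degree `2 j` of `X ^ (n + 1)` which is generated by
the Hodge classes. -/
noncomputable def hodgeSpan (n j : ℕ) : Submodule E (PowH T E X n) :=
  Submodule.span E {x | ∃ c, IsHodge T (pw X n) j c ∧ x = emL T.W E c}

/-- The subspace (over `E`) of the cohomology of degree `2 j` which is generated by the Tate
classes. -/
noncomputable def tateSpan {E : Type} [Field E] {H : ℕ → Type} {Γ : Type} [Group Γ]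
    [TopologicalSpace Γ] [∀ n, AddCommGroup (H n)] [∀ n, Module E (H n)] (O : Ops E H) (χ : Γ → E)
    (ρ : ∀ n, Γ → H n → H n) (n j : ℕ) : Submodule E (H n) :=
  Submodule.span E {x | O.deg n (2 * j) x ∧ IsTate O χ ρ j x}

end Pool.Agent.N211.TP3
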