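import Pool.Agent.N996.BP.Main2
import Pool.Agent.Y133.Half.PredSys

/-!
# Properties of classes on the powers of a variety
-/

set_option linter.unusedSectionVars false

open CategoryTheory AlgebraicGeometry

universe u

namespace Pool.Agent.N211.TP3

open Module
open Pool.Agent.H914 Pool.Agent.H914.VarClass Pool.Agent.H914.VarClass.Obj
  Pool.Agent.H914.WeilCohomology
open Pool.Agent.Y133.Half (pw pfst)
open Pool.Agent.N996.BP.Geo (IsCd CSys)

variable {k : Type u} [Field k] {𝒱 : VarClass k} {ops : CycleOps 𝒱}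

/-- A property of classes on the powers of `X`. -/
structure PPred (W : WeilCohomology.{u, 0} ops) (X : 𝒱.Obj) where
  /-- the property of the classes of degree `2 j` on the power -/
  P : ∀ n, ℕ → W.H (pw X n) → Prop
  gr : ∀ {n j : ℕ} {c : W.H (pw X n)}, P n j c → c ∈ W.gr (pw X n) (2 * j)
  zero : ∀ {n j : ℕ}, P n j 0
  add : ∀ {n j : ℕ} {a b : W.H (pw X n)}, P n j a → P n j b → P n j (a + b)
  smul : ∀ {n j : ℕ} (r : W.K) {a : W.H (pw X n)}, P n j a → P n j (r • a)
  mul : ∀ {n i j : ℕ} {a b : W.H (pw X n)}, P n i a → P n j b → P n (i + j) (a * b)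
  map : ∀ {n m : ℕ} (f : pw X m ⟶ pw X n) (_ : IsCd f) {j : ℕ} {a : W.H (pw X n)},
    P n j a → P m j (W.map f a)
  push : ∀ {n j l : ℕ}, l + X.dim = j → ∀ {a : W.H (pw X (n + 1))},
    P (n + 1) j a → P n l (W.push (pfst X n) a)

namespace PPred

variable {W : WeilCohomology.{u, 0} ops} {X : 𝒱.Obj} (Q : PPred W X)

/-- The space of the classes. -/
noncomputable def sp (n : ℕ) : Submodule W.K (W.H (pw X n)) :=
  Submodule.span W.K {c | ∃ j, Q.P n j c}

variable {Q} {n : ℕ}

lemma sp_of {j : ℕ} {c : W.H (pw X n)} (hc : Q.P n j c) : c ∈ Q.sp n :=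
  Submodule.subset_span ⟨j, hc⟩

lemma sp_ind {q : W.H (pw X n) → Prop} (h : ∀ j x, Q.P n j x → q x) (h0 : q 0)
    (hadd : ∀ a b, q a → q b → q (a + b)) {x : W.H (pw X n)} (hx : x ∈ Q.sp n) : q x := by
  have key : ∀ z, z ∈ Q.sp n → (q z ∧ ∀ c : W.K, q (c • z)) := by
    intro z hz
    induction hz using Submodule.span_induction with
    | mem x hx => obtain ⟨j, hj⟩ := hx; exact ⟨h j x hj, fun c => h j _ (Q.smul c hj)⟩
    | zero => exact ⟨h0, fun c => by rw [smul_zero]; exact h0⟩
    | add x y _ _ hx hy =>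
      exact ⟨hadd x y hx.1 hy.1, fun c => by rw [smul_add]; exact hadd _ _ (hx.2 c) (hy.2 c)⟩
    | smul c x _ hx => exact ⟨hx.2 c, fun d => by rw [smul_smul]; exact hx.2 _⟩
  exact (key x hx).1

lemma sp_proj {x : W.H (pw X n)} (hx : x ∈ Q.sp n) (j : ℕ) :
    Q.P n j (H914.proj (W.isInternal (pw X n)) (2 * j) x) := by
  refine sp_ind (q := fun x => Q.P n j (H914.proj (W.isInternal (pw X n)) (2 * j) x))
    ?_ ?_ ?_ hx
  · intro i x hx
    by_cases h : i = j
    · subst h
      rw [proj_same _ (Q.gr hx)]; exact hx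
    · rw [proj_ne _ (Q.gr hx) (by omega)]; exact Q.zero
  · rw [map_zero]; exact Q.zero
  · intro x y hx hy
    rw [map_add]; exact Q.add hx hy

lemma of_sp {j : ℕ} {x : W.H (pw X n)} (hx : x ∈ Q.sp n) (h : x ∈ W.gr (pw X n) (2 * j)) :
    Q.P n j x := by
  have h1 := sp_proj hx j
  rwa [proj_same _ h] at h1

variable (Q)

/-- The system of the classes. -/
noncomputable def csys : CSys W X where
  C n := Q.sp n
  mul {n c d} hc hd := by
    refine sp_ind (q := fun c => c * d ∈ Q.sp n) ?_ ?_ ?_ hc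
    · intro j x hx
      refine sp_ind (q := fun d => x * d ∈ Q.sp n) ?_ ?_ ?_ hd
      · intro l y hy; exact sp_of (Q.mul hx hy)
      · rw [mul_zero]; exact Submodule.zero_mem _
      · intro a b ha hb; rw [mul_add]; exact Submodule.add_mem _ ha hb
    · rw [zero_mul]; exact Submodule.zero_mem _
    · intro a b ha hb; rw [add_mul]; exact Submodule.add_mem _ ha hb
  map {n m} f hf c hc := by
    refine sp_ind (q := fun c => W.map f c ∈ Q.sp m) ?_ ?_ ?_ hc
    · intro j x hx; exact sp_of (Q.map f hf hx)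
    · rw [map_zero]; exact Submodule.zero_mem _
    · intro a b ha hb; rw [map_add]; exact Submodule.add_mem _ ha hb
  push {n c} hc := by
    refine sp_ind (q := fun c => W.push (pfst X n) c ∈ Q.sp n) ?_ ?_ ?_ hc
    · intro j x hx
      by_cases hd : X.dim ≤ j
      · exact sp_of (Q.push (l := j - X.dim) (by omega) hx)
      · have h2 := W.push_mem (pfst X n) (Q.gr hx)
        have h3 : (pw X (n + 1)).dim = (pw X n).dim + X.dim := rfl
        rw [grZ_of_neg (by rw [h3]; push_cast; omega), Submodule.mem_bot] at h2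
        rw [h2]
        exact Submodule.zero_mem _
    · rw [map_zero]; exact Submodule.zero_mem _
    · intro a b ha hb; rw [map_add]; exact Submodule.add_mem _ ha hb

end PPred

end Pool.Agent.N211.TP3
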