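import Pool.Agent.N211.TP2.Main
import Pool.Agent.N211.TP3.PPred

/-!
# Hodge classes which are Tate classes
-/

set_option linter.unusedSectionVars false

open CategoryTheory AlgebraicGeometry

universe u

namespace Pool.Agent.N211.TP3

open Module
open Pool.Agent.H914 Pool.Agent.H914.VarClass Pool.Agent.H914.VarClass.Obj
  Pool.Agent.H914.WeilCohomology
open Pool.Agent.Y121.AHS
open Pool.Agent.Y121.AH (hodgePred)
open Pool.Agent.Y133.Half (pw ClassPred pfst)
open Pool.Agent.N996.BP (isCoordinateMap_iff)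
open Pool.Agent.N996.BP.Geo (IsCd)
open Pool.Agent.N211.BT (mapB mapB_apply mulB mulB_apply trB trB_apply bL bL_apply emL_map emL_mul
  emL_add emL_smul emL_zero trL_emL nondegE)
open Pool.Agent.N211.TP2

variable {k : Type u} [Field k] {𝒱 : VarClass k} {ops : CycleOps 𝒱}

/-- The projection formula with extended coefficients. -/
lemma tr_pushE {W : WeilCohomology.{u, 0} ops} {X Y : 𝒱.Obj} {E : Type} [Field E] [Algebra W.K E]
    (f : X ⟶ Y) (c : W.H X) (y : HL W E Y) :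
    trL (mulL (emL W E (W.push f c)) y) = trL (mulL (emL W E c) (mapL f y)) := by
  have h : (trB W E Y) ∘ₗ (mulB W E Y (emL W E (W.push f c))) =
      (trB W E X) ∘ₗ (mulB W E X (emL W E c)) ∘ₗ (mapB E f) := by
    refine (bL E (Module.finBasis W.K (W.H Y))).ext fun i => ?_
    rw [bL_apply, LinearMap.comp_apply, LinearMap.comp_apply, LinearMap.comp_apply, mulB_apply,
      mulB_apply, mapB_apply, ← emL_mul, ← emL_map, ← emL_mul, trB_apply, trB_apply, trL_emL,
      trL_emL, W.tr_push]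
  exact LinearMap.congr_fun h y

variable {T : HodgeTheory ops} {X : 𝒱.Obj} {ψ : TP2.Bil T.W.K (T.W.H X)}
  {E : Type} [Field E] [Algebra T.W.K E] {Γ : Type} [Group Γ] [TopologicalSpace Γ] {χ : Γ → E}
  {ρ : ∀ n, Γ → PowH T E X n → PowH T E X n}

/-- The condition for Tate classes. -/
def IsT (h : IsGalois (cohOps T E ψ) χ ρ) (n j : ℕ) (x : HL T.W E (pw X n)) : Prop :=
  ∃ Δ : Subgroup Γ, Δ.FiniteIndex ∧ IsOpen (Δ : Set Γ) ∧ ∀ g ∈ Δ, rep h n g x = (χ g ^ j) • x

variable {h : IsGalois (cohOps T E ψ) χ ρ}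

lemma isT_iff {n j : ℕ} {x : HL T.W E (pw X n)} :
    IsT h n j x ↔ IsTate (cohOps T E ψ) χ ρ (n := n) j x := Iff.rfl

lemma isT_zero {n j : ℕ} : IsT h n j 0 :=
  ⟨⊤, inferInstance, isOpen_univ, fun g _ => by rw [map_zero, smul_zero]⟩

lemma isT_add {n j : ℕ} {x y : HL T.W E (pw X n)} (hx : IsT h n j x) (hy : IsT h n j y) :
    IsT h n j (x + y) := by
  obtain ⟨Δ, h1, h2, h3⟩ := hx
  obtain ⟨Δ', h1', h2', h3'⟩ := hy
  refine ⟨Δ ⊓ Δ', inferInstance, h2.inter h2', fun g hg => ?_⟩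
  rw [map_add, h3 g hg.1, h3' g hg.2, smul_add]

lemma isT_smul {n j : ℕ} (c : E) {x : HL T.W E (pw X n)} (hx : IsT h n j x) :
    IsT h n j (c • x) := by
  obtain ⟨Δ, h1, h2, h3⟩ := hx
  refine ⟨Δ, h1, h2, fun g hg => ?_⟩
  rw [map_smul, h3 g hg, smul_comm]

lemma isT_mul {n i j : ℕ} {x y : HL T.W E (pw X n)} (hx : IsT h n i x) (hy : IsT h n j y) :
    IsT h n (i + j) (mulL x y) := by
  obtain ⟨Δ, h1, h2, h3⟩ := hx
  obtain ⟨Δ', h1', h2', h3'⟩ := hy
  refine ⟨Δ ⊓ Δ', inferInstance, h2.inter h2', fun g hg => ?_⟩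
  have h4 : rep h n g (mulL x y) = mulL (rep h n g x) (rep h n g y) := h.mul n g x y
  rw [h4, h3 g hg.1, h3' g hg.2, ← mulB_apply, map_smul, map_smul, LinearMap.smul_apply,
    smul_smul, pow_add, mul_comm, mulB_apply]

lemma rep_map (h : IsGalois (cohOps T E ψ) χ ρ) {n m : ℕ} (f : pw X m ⟶ pw X n) (hf : IsCd f)
    (g : Γ) (x : HL T.W E (pw X n)) : rep h m g (mapL f x) = mapL f (rep h n g x) :=
  act_coord (r := fun n => rep h n g) (fun n x y => h.mul n g x y)
    (fun n x => h.fst n g x) (fun n x => h.snd n g x) f hf x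

lemma isT_map {n m j : ℕ} (f : pw X m ⟶ pw X n) (hf : IsCd f) {x : HL T.W E (pw X n)}
    (hx : IsT h n j x) : IsT h m j (mapL f x) := by
  obtain ⟨Δ, h1, h2, h3⟩ := hx
  refine ⟨Δ, h1, h2, fun g hg => ?_⟩
  rw [rep_map h f hf, h3 g hg, ← mapB_apply, map_smul, mapB_apply]

lemma chi_ne (h : IsGalois (cohOps T E ψ) χ ρ) (g : Γ) : χ g ≠ 0 := by
  have h1 := (h.comp g g⁻¹).1
  rw [mul_inv_cancel, h.one.1] at h1
  intro h0
  rw [h0, zero_mul] at h1
  exact one_ne_zero h1

lemma rep_surj (h : IsGalois (cohOps T E ψ) χ ρ) (n : ℕ) (g : Γ) (y : HL T.W E (pw X n)) :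
    ∃ y', rep h n g y' = y := by
  refine ⟨rep h n g⁻¹ y, ?_⟩
  rw [← Module.End.mul_apply, ← map_mul, mul_inv_cancel, map_one, Module.End.one_apply]

lemma isT_push {n j l : ℕ} (hl : l + X.dim = j) {c : T.W.H (pw X (n + 1))}
    (hc : IsT h (n + 1) j (emL T.W E c)) : IsT h n l (emL T.W E (T.W.push (pfst X n) c)) := by
  obtain ⟨Δ, h1, h2, h3⟩ := hc
  refine ⟨Δ, h1, h2, fun g hg => ?_⟩
  obtain ⟨p, hp⟩ : ∃ p, p = emL T.W E (T.W.push (pfst X n) c) := ⟨_, rfl⟩
  have hf : IsCd (pfst X n) := isCoordinateMap_iff.1 (BT.isCoord_fst n)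
  have hpr : ∀ y, trL (mulL p y) = trL (mulL (emL T.W E c) (mapL (pfst X n) y)) := fun y => by
    rw [hp]
    exact tr_pushE (pfst X n) c y
  have htr : ∀ m (x : HL T.W E (pw X m)), trL (rep h m g x) = χ g ^ (pw X m).dim * trL x :=
    fun m x => h.tr m g x
  have hmul : ∀ m (x y : HL T.W E (pw X m)),
      rep h m g (mulL x y) = mulL (rep h m g x) (rep h m g y) := fun m x y => h.mul m g x y
  have hsm : ∀ m (t : E) (x y : HL T.W E (pw X m)), trL (mulL (t • x) y) = t * trL (mulL x y) := by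
    intro m t x y
    rw [← mulB_apply, ← trB_apply, map_smul, LinearMap.smul_apply, map_smul, smul_eq_mul]
    rfl
  rw [← hp]
  have key : ∀ y, trL (mulL (rep h n g p) y) = trL (mulL ((χ g ^ l) • p) y) := by
    intro y
    obtain ⟨y', rfl⟩ := rep_surj h n g y
    rw [← hmul, htr, hsm]
    have h4 : χ g ^ (pw X (n + 1)).dim * trL (mulL p y') =
        χ g ^ j * trL (mulL p (rep h n g y')) := by
      rw [hpr, hpr, ← htr, hmul, h3 g hg, rep_map h _ hf, hsm]
    have h5 : (pw X (n + 1)).dim = (pw X n).dim + X.dim := rfl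
    rw [h5, ← hl, pow_add, pow_add] at h4
    have h6 : χ g ^ X.dim ≠ 0 := pow_ne_zero _ (chi_ne h g)
    apply mul_left_cancel₀ h6
    linear_combination h4
  have h7 : rep h n g p - (χ g ^ l) • p = 0 := by
    apply nondeg_left
    intro y
    have h8 : trL (mulL (rep h n g p - (χ g ^ l) • p) y) =
        trL (mulL (rep h n g p) y) - trL (mulL ((χ g ^ l) • p) y) := by
      rw [← mulB_apply, ← trB_apply, map_sub, LinearMap.sub_apply, map_sub]
      rfl
    rw [h8, key, sub_self]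
  exact sub_eq_zero.1 h7

/-- The Hodge classes which are Tate classes. -/
def hodgeTate (h : IsGalois (cohOps T E ψ) χ ρ) : PPred T.W X where
  P n j c := IsHodge T (pw X n) j c ∧ IsT h n j (emL T.W E c)
  gr hc := hc.1.1
  zero {n j} := ⟨(hodgePred (toH T)).zero, by rw [emL_zero]; exact isT_zero⟩
  add ha hb := ⟨(hodgePred (toH T)).add ha.1 hb.1, by rw [emL_add]; exact isT_add ha.2 hb.2⟩
  smul r _ ha := ⟨(hodgePred (toH T)).smul r ha.1, by rw [emL_smul]; exact isT_smul _ ha.2⟩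
  mul ha hb := ⟨(hodgePred (toH T)).mul ha.1 hb.1, by rw [emL_mul]; exact isT_mul ha.2 hb.2⟩
  map f hf _ _ ha := ⟨(hodgePred (toH T)).map f ha.1, by rw [emL_map]; exact isT_map f hf ha.2⟩
  push {n j l} hl a ha := ⟨(hodgePred (toH T)).push (pfst X n) (by
    have h5 : (pw X (n + 1)).dim = (pw X n).dim + X.dim := rfl
    rw [h5]
    omega) ha.1, isT_push hl ha.2⟩

/-- The Hodge classes on `X ^ (n + 1)` are Tate classes. -/
def HIT (h : IsGalois (cohOps T E ψ) χ ρ) (n : ℕ) : Prop :=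
  ∀ j c, IsHodge T (pw X n) j c → IsT h n j (emL T.W E c)

lemma hit_iff {n : ℕ} : HIT h n ↔ (hodgePred (toH T)).sp (pw X n) ≤ (hodgeTate h).sp n := by
  constructor
  · intro hh c hc
    refine ClassPred.sp_ind (Q := hodgePred (toH T)) (q := fun c => c ∈ (hodgeTate h).sp n)
      ?_ ?_ ?_ hc
    · intro j x hx
      exact PPred.sp_of (Q := hodgeTate h) ⟨hx, hh j x hx⟩
    · exact Submodule.zero_mem _
    · intro a b ha hb
      exact Submodule.add_mem _ ha hb
  · intro hh j c hc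
    have h1 := hh (ClassPred.sp_of (Q := hodgePred (toH T)) hc)
    exact (PPred.of_sp (Q := hodgeTate h) h1 hc.1).2

lemma le_hodge (n : ℕ) : (hodgeTate h).sp n ≤ (hodgePred (toH T)).sp (pw X n) := by
  intro c hc
  refine PPred.sp_ind (Q := hodgeTate h) (q := fun c => c ∈ (hodgePred (toH T)).sp (pw X n))
    ?_ ?_ ?_ hc
  · intro j x hx
    exact ClassPred.sp_of (Q := hodgePred (toH T)) hx.1
  · exact Submodule.zero_mem _
  · intro a b ha hb
    exact Submodule.add_mem _ ha hb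

/-- **Hodge classes are Tate classes on all powers if they are on one power.** -/
theorem hit_all (hψ : TP2.IsPolarisation T X ψ) {N : ℕ}
    (hN : N + 1 = exponent (finrank T.W.K (T.W.H X))) (hH : HIT h N) (n : ℕ) : HIT h n := by
  have h2 : N996.BP.Geo.expo (finrank T.W.K (T.W.H X)) - 1 ≤ N := by
    have := expo_le (finrank T.W.K (T.W.H X))
    omega
  have h3 := N996.BP.Geo.mono_cd (T := toH T) (S := (hodgeTate h).csys)
    (S' := (hodgePred (toH T)).sys.csys X) h2 (hit_iff.1 hH)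
  exact hit_iff.2 (N996.BP.Geo.bounded_c (T := toH T) hψ.conv.isPHS (hodgeTate h).csys le_hodge
    h3 n)

end Pool.Agent.N211.TP3
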