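import Pool.Agent.N211.TP3.Defs
import Pool.Agent.N211.TP3.Hdg

/-!
# The bounded power theorem for the Mumford-Tate conjecture
-/

set_option linter.unusedSectionVars false

open CategoryTheory AlgebraicGeometry

universe u

namespace Pool.Agent.N211.TP3

open Module
open Pool.Agent.H914 Pool.Agent.H914.VarClass Pool.Agent.H914.VarClass.Obj
  Pool.Agent.H914.WeilCohomology
open Pool.Agent.Y121.AHS
open Pool.Agent.Y121.AH (hodgePred)
open Pool.Agent.Y133.Half (pw ClassPred pfst)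
open Pool.Agent.N996.BP (totalBetti)
open Pool.Agent.N211.BT (emL_deg)
open Pool.Agent.N211.TP2

variable {k : Type u} [Field k] {𝒱 : VarClass k} {ops : CycleOps 𝒱} {T : HodgeTheory ops}
  {X : 𝒱.Obj} {ψ : TP2.Bil T.W.K (T.W.H X)}
  {E : Type} [Field E] [Algebra T.W.K E] {Γ : Type} [Group Γ] [TopologicalSpace Γ] {χ : Γ → E}
  {ρ : ∀ n, Γ → PowH T E X n → PowH T E X n}
  {h : IsGalois (cohOps T E ψ) χ ρ}

lemma isT_of_span {n j : ℕ} {x : HL T.W E (pw X n)}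
    (hx : (show PowH T E X n from x) ∈ tateSpan (cohOps T E ψ) χ ρ n j) :
    IsT h n j x := by
  refine Submodule.span_induction (p := fun (x : PowH T E X n) _ => IsT h n j x)
    ?_ ?_ ?_ ?_ hx
  · rintro x ⟨-, hx⟩
    exact hx
  · exact isT_zero
  · intro x y _ _ hx hy
    exact isT_add hx hy
  · intro c x _ hx
    exact isT_smul c hx

lemma hit_iff_le {n : ℕ} : HIT h n ↔
    ∀ j, hodgeSpan T E X n j ≤ tateSpan (cohOps T E ψ) χ ρ n j := by
  constructor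
  · intro hh j
    refine Submodule.span_le.2 ?_
    rintro _ ⟨c, hc, rfl⟩
    exact Submodule.subset_span ⟨emL_deg hc.1, hh j c hc⟩
  · intro hh j c hc
    exact isT_of_span (h := h) (hh j (Submodule.subset_span ⟨c, hc, rfl⟩))

variable [TopologicalSpace E] [T2Space E] [IsTopologicalRing E] [IsTopologicalGroup Γ]
  {hf : ∀ n j z, (pw X n).IsCyc j z → ∃ Δ : Subgroup Γ, Δ.FiniteIndex ∧ ∀ g ∈ Δ,
      rep h n g (emL T.W E (T.W.cl (pw X n) z)) = twL (χ g) j (emL T.W E (T.W.cl (pw X n) z))}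

lemma tateIn_hodge (hA : (toG h hf).IsArithmetic) {n : ℕ}
    (hT : ∀ j, tateSpan (cohOps T E ψ) χ ρ n j ≤ hodgeSpan T E X n j) :
    BT.TateIn (toG h hf) (hodgePred (toH T)) n := by
  intro K hK j x hx hinv
  have h1 := inv_closure hA hinv
  have h2 : (K.topologicalClosure).FiniteIndex := Subgroup.finiteIndex_of_le K.le_topologicalClosure
  have h3 : IsOpen (K.topologicalClosure : Set Γ) :=
    K.topologicalClosure.isOpen_of_isClosed_of_finiteIndex K.isClosed_topologicalClosure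
  have h4 : (show PowH T E X n from x) ∈ hodgeSpan T E X n j :=
    hT j (Submodule.subset_span ⟨hx, K.topologicalClosure, h2, h3, fun g hg => h1 g hg⟩)
  refine (Submodule.span_mono ?_) h4
  rintro _ ⟨c, hc, rfl⟩
  exact ⟨c, hc, rfl⟩

lemma tate_le_of {n : ℕ} (hT : BT.TateIn (toG h hf) (hodgePred (toH T)) n) (j : ℕ) :
    tateSpan (cohOps T E ψ) χ ρ n j ≤ hodgeSpan T E X n j := by
  refine Submodule.span_le.2 ?_
  rintro x ⟨hx, Δ, hΔ, -, hinv⟩
  have h1 := hT Δ hΔ j x hx hinv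
  refine (Submodule.span_mono ?_) h1
  rintro _ ⟨c, hc, rfl⟩
  exact ⟨c, hc, rfl⟩

/-- **The bounded power theorem for the Mumford-Tate conjecture.** -/
theorem main (hψ : IsPolarisation T X ψ) (hE : Nonempty (E →+* ℂ))
    (hG : IsGalois (cohOps T E ψ) χ ρ) (hA : IsArithmetic (cohOps T E ψ) χ ρ)
    (hC : ∀ n j, ∀ x ∈ cycClasses T E X n j, IsTate (cohOps T E ψ) χ ρ j x)
    {N : ℕ} (hN : N + 1 = exponent (finrank T.W.K (T.W.H X))) :
    ((∀ j, hodgeSpan T E X N j ≤ tateSpan (cohOps T E ψ) χ ρ N j) →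
      ∀ n j, hodgeSpan T E X n j ≤ tateSpan (cohOps T E ψ) χ ρ n j) ∧
    ((∀ j, IsSemisimple (cohOps T E ψ) ρ ⊤ N (2 * j)) →
      ((∀ j, tateSpan (cohOps T E ψ) χ ρ N j ≤ hodgeSpan T E X N j) →
        ∀ n j, tateSpan (cohOps T E ψ) χ ρ n j ≤ hodgeSpan T E X n j) ∧
      ((∀ j, hodgeSpan T E X N j = tateSpan (cohOps T E ψ) χ ρ N j) →
        (∀ n j, hodgeSpan T E X n j = tateSpan (cohOps T E ψ) χ ρ n j) ∧
        ∀ n (Δ : Subgroup Γ), Δ.FiniteIndex → ∀ i, IsSemisimple (cohOps T E ψ) ρ Δ n i)) := by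
  have hfc : ∀ n j z, (pw X n).IsCyc j z → ∃ Δ : Subgroup Γ, Δ.FiniteIndex ∧ ∀ g ∈ Δ,
      rep hG n g (emL T.W E (T.W.cl (pw X n) z)) =
        twL (χ g) j (emL T.W E (T.W.cl (pw X n) z)) := by
    intro n j z hz
    obtain ⟨Δ, h1, -, h2⟩ := hC n j (emL T.W E (T.W.cl (pw X n) z)) ⟨z, hz, rfl⟩
    exact ⟨Δ, h1, fun g hg => h2 g hg⟩
  have h1 : (∀ j, hodgeSpan T E X N j ≤ tateSpan (cohOps T E ψ) χ ρ N j) →
      ∀ n j, hodgeSpan T E X n j ≤ tateSpan (cohOps T E ψ) χ ρ n j := fun h n =>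
    hit_iff_le.1 (hit_all (h := hG) hψ hN (hit_iff_le.2 h) n)
  have hA' := arith (h := hG) (hf := hfc) hA
  have hN' : BT.tateExponent (totalBetti T X) - 1 = N := by
    have h1 : BT.tateExponent (totalBetti T X) = exponent (finrank T.W.K (T.W.H X)) := rfl
    omega
  refine ⟨h1, fun hS => ?_⟩
  have key := fun hT => BT.bounded_q (toG hG hfc) (Q := hodgePred (toH T)) hψ.conv respects hA' hE
    (fun Z => le_rfl) (fun j => by rw [hN']; exact ss_iff.1 (hS j)) (by rw [hN']; exact hT)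
  refine ⟨fun hT n j => tate_le_of ((key (tateIn_hodge hA' hT)).1 n) j, fun hT => ?_⟩
  have h2 := key (tateIn_hodge hA' fun j => (hT j).ge)
  have h3 := h1 fun j => (hT j).le
  refine ⟨fun n j => le_antisymm (h3 n j) (tate_le_of (h2.1 n) j), fun n Δ hΔ i => ?_⟩
  have hfix : ∀ n j c, (hodgePred (toH T)).P (pw X n) j c → ∃ Δ : Subgroup Γ, Δ.FiniteIndex ∧
      ∀ g ∈ Δ, (toG hG hfc).ρ n g (emL T.W E c) =
        twL ((toG hG hfc).χ g : E) j (emL T.W E c) := by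
    intro n j c hc
    obtain ⟨Δ, h4, -, h5⟩ := (hit_iff_le (h := hG)).2 (h3 n) j c hc
    exact ⟨Δ, h4, fun g hg => h5 g hg⟩
  exact ss_iff.2 (h2.2 hfix n Δ hΔ i)

end Pool.Agent.N211.TP3
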